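import Mathlib
import Pool.Agent.TH722.FI.Fin

/-!
# The f-invariant is invariant under L^2 orbit equivalence

For essentially free, finitely generated pmp actions of a free group of finite rank, the
f-invariant is an invariant of `L^p` orbit equivalence for every `p` with `2 ≤ p ≤ ∞`.
-/

set_option autoImplicit false

open MeasureTheory Filter Set
open scoped ENNReal Topology

namespace Pool.Agent.Results.MP_572a3e_an.LTwoInvariance

/-- Shannon entropy `H_μ(φ)` of an observable `φ : X → A`. -/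
noncomputable def shannon {X A : Type*} [MeasurableSpace X] (μ : Measure X) (φ : X → A) : ℝ :=
  ∑' a, Real.negMulLog (μ.real {x | φ x = a})

/-- The observable `φ^{T,K}(x) = (φ(T^{k⁻¹} x))_{k ∈ K}`. -/
def orbitObs {r : ℕ} {X A : Type*} [MulAction (FreeGroup (Fin r)) X]
    (K : Set (FreeGroup (Fin r))) (φ : X → A) (x : X) : K → A :=
  fun k => φ ((k : FreeGroup (Fin r))⁻¹ • x)

/-- Bowen's functional `F_μ(T,φ) = (1-2r) H_μ(φ) + ∑_i H_μ(φ^{T,{e,s_i}})`. -/
noncomputable def bowenF (r : ℕ) {X A : Type*} [MeasurableSpace X]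
    [MulAction (FreeGroup (Fin r)) X] (μ : Measure X) (φ : X → A) : ℝ :=
  (1 - 2 * (r : ℝ)) * shannon μ φ +
    ∑ i : Fin r, shannon μ (orbitObs ({1, FreeGroup.of i} : Set (FreeGroup (Fin r))) φ)

/-- `φ` is an observable with countably many values, finite Shannon entropy, and it is
generating: every measurable set agrees, up to a null set, with a set of the smallest invariant
sigma-algebra making `φ` measurable. -/
structure IsGenerator (r : ℕ) {X A : Type*} [MeasurableSpace X] [MulAction (FreeGroup (Fin r)) X]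
    (μ : Measure X) (φ : X → A) : Prop where
  meas : ∀ a, MeasurableSet {x | φ x = a}
  finEnt : Summable fun a => Real.negMulLog (μ.real {x | φ x = a})
  gen : ∀ B : Set X, MeasurableSet B → ∃ B' : Set X,
    MeasurableSet[⨆ g : FreeGroup (Fin r), MeasurableSpace.comap (fun x => φ (g • x)) ⊤] B' ∧
      B =ᵐ[μ] B'

/-- `L` is the f-invariant of the action of the free group of rank `r` on `(X, μ)`: some
generator exists, and for every generator `φ` the numbers `F_μ(T, φ^{T,B(ρ)})` tend to `L`. -/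
def HasFInvariant (r : ℕ) {X : Type*} [MeasurableSpace X] [MulAction (FreeGroup (Fin r)) X]
    (μ : Measure X) (L : EReal) : Prop :=
  (∃ (A : Type) (_ : Countable A) (φ : X → A), IsGenerator r μ φ) ∧
  ∀ (A : Type) (_ : Countable A) (φ : X → A), IsGenerator r μ φ →
    Tendsto (fun ρ : ℕ =>
      ((bowenF r μ (orbitObs {k : FreeGroup (Fin r) | k.norm ≤ ρ} φ) : ℝ) : EReal)) atTop (𝓝 L)

/-- An essentially free probability measure preserving action. -/
structure FreePmp (r : ℕ) {X : Type*} [MeasurableSpace X] [MulAction (FreeGroup (Fin r)) X]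
    (μ : Measure X) : Prop where
  pmp : ∀ g : FreeGroup (Fin r), MeasurePreserving (fun x : X => g • x) μ μ
  free : ∀ᵐ x ∂μ, ∀ g : FreeGroup (Fin r), g • x = x → g = 1

/-- `L^p` orbit equivalence: `Φ` (with a.e. inverse `Ψ`) is an isomorphism of measure spaces
carrying orbits onto orbits, with cocycles `α`, `β` whose word lengths are in `L^p`. -/
def LpOrbitEquivalent (r : ℕ) (p : ℝ≥0∞) {X Y : Type*} [MeasurableSpace X] [MeasurableSpace Y]
    [MulAction (FreeGroup (Fin r)) X] [MulAction (FreeGroup (Fin r)) Y]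
    (μ : Measure X) (ν : Measure Y) : Prop :=
  ∃ (Φ : X → Y) (Ψ : Y → X) (α : FreeGroup (Fin r) → X → FreeGroup (Fin r))
    (β : FreeGroup (Fin r) → Y → FreeGroup (Fin r)),
    MeasurePreserving Φ μ ν ∧ MeasurePreserving Ψ ν μ ∧
    (∀ᵐ x ∂μ, Ψ (Φ x) = x) ∧ (∀ᵐ y ∂ν, Φ (Ψ y) = y) ∧
    (∀ᵐ x ∂μ, Φ '' MulAction.orbit (FreeGroup (Fin r)) x =
      MulAction.orbit (FreeGroup (Fin r)) (Φ x)) ∧
    (∀ᵐ x ∂μ, ∀ g, α g x • Φ x = Φ (g • x)) ∧
    (∀ᵐ y ∂ν, ∀ g, β g y • Ψ y = Ψ (g • y)) ∧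
    (∀ g, MemLp (fun x => ((α g x).norm : ℝ)) p μ) ∧
    (∀ g, MemLp (fun y => ((β g y).norm : ℝ)) p ν)

section bridge

open Pool.Agent.TH722.FI Pool.Agent.TH722.FI.Jobs

variable {r : ℕ} {X A : Type*} [MeasurableSpace X] [MulAction (FreeGroup (Fin r)) X]
  {μ : Measure X} [IsProbabilityMeasure μ]

theorem shannon_eq {φ : X → A} (h : IsLab μ φ) : shannon μ φ = ent μ φ :=
  (lab_shannon h.meas h.cnt).2.symm

theorem isLab_of_gen [Countable A] {φ : X → A} (h : IsGenerator r μ φ) : IsLab μ φ :=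
  (lab_shannon h.meas (Set.to_countable _)).1.mpr h.finEnt

theorem bowenF_eq (hX : ∀ g : FreeGroup (Fin r), MeasurePreserving (fun x : X => g • x) μ μ)
    {φ : X → A} (h : IsLab μ φ) :
    bowenF r μ φ = BF μ (fun (g : FreeGroup (Fin r)) (x : X) => g • x) φ := by
  unfold bowenF BF
  rw [shannon_eq h]
  congr 1
  refine Finset.sum_congr rfl fun i _ => ?_
  have h2 := (lab_pair h (lab_comp (hX (FreeGroup.of i)⁻¹) h).1).1
  have f1 : Finer (fun x => (φ x, φ ((FreeGroup.of i : FreeGroup (Fin r))⁻¹ • x)))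
      (orbitObs ({1, FreeGroup.of i} : Set (FreeGroup (Fin r))) φ) := by
    intro x y hxy
    simp only [Prod.mk.injEq] at hxy
    funext k
    obtain ⟨k, hk⟩ := k
    simp only [orbitObs]
    rcases hk with rfl | hk
    · simpa using hxy.1
    · rw [Set.mem_singleton_iff] at hk
      subst hk
      exact hxy.2
  have f2 : Finer (orbitObs ({1, FreeGroup.of i} : Set (FreeGroup (Fin r))) φ)
      (fun x => (φ x, φ ((FreeGroup.of i : FreeGroup (Fin r))⁻¹ • x))) := by
    intro x y hxy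
    have e1 := congrFun hxy ⟨1, by simp⟩
    have e2 := congrFun hxy ⟨FreeGroup.of i, by simp⟩
    simp only [orbitObs, inv_one, one_smul] at e1 e2
    simp only [Prod.mk.injEq]
    exact ⟨e1, e2⟩
  rw [shannon_eq (lab_of_finer h2 f1).1]
  exact ent_congr f2 f1

theorem bowenF_ball (hX : ∀ g : FreeGroup (Fin r), MeasurePreserving (fun x : X => g • x) μ μ)
    {φ : X → A} (h : IsLab μ φ) (ρ : ℕ) :
    bowenF r μ (orbitObs {k : FreeGroup (Fin r) | k.norm ≤ ρ} φ) =
      BF μ (fun (g : FreeGroup (Fin r)) (x : X) => g • x)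
        (ballLab (fun (g : FreeGroup (Fin r)) (x : X) => g • x) φ ρ) := by
  have hl : IsLab μ (orbitObs {k : FreeGroup (Fin r) | k.norm ≤ ρ} φ) := by
    have : Finite {k : FreeGroup (Fin r) // k.norm ≤ ρ} := (norm_finite r ρ).to_subtype
    have := Fintype.ofFinite {k : FreeGroup (Fin r) // k.norm ≤ ρ}
    exact lab_pi (fun (k : {k : FreeGroup (Fin r) // k.norm ≤ ρ}) x => φ (k.1⁻¹ • x))
      (fun k => (lab_comp (hX k.1⁻¹) h).1)
  rw [bowenF_eq hX hl]
  rfl

end bridge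

/-- The f-invariant is invariant under `L^p` orbit equivalence, for every `2 ≤ p ≤ ∞`. -/
theorem result (r : ℕ) (p : ℝ≥0∞) (hp : 2 ≤ p) {X Y : Type} [MeasurableSpace X]
    [StandardBorelSpace X] [MeasurableSpace Y] [StandardBorelSpace Y]
    [MulAction (FreeGroup (Fin r)) X] [MulAction (FreeGroup (Fin r)) Y]
    (μ : Measure X) (ν : Measure Y) [IsProbabilityMeasure μ] [IsProbabilityMeasure ν]
    (hX : FreePmp r μ) (hY : FreePmp r ν)
    (hgX : ∃ (A : Type) (_ : Countable A) (φ : X → A), IsGenerator r μ φ)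
    (hgY : ∃ (A : Type) (_ : Countable A) (φ : Y → A), IsGenerator r ν φ)
    (hOE : LpOrbitEquivalent r p μ ν) :
    ∃ L : EReal, L ≠ ⊤ ∧ HasFInvariant r μ L ∧ HasFInvariant r ν L := by
  obtain ⟨Φ, Ψ, α, β, h1, h2, h3, h4, h5, h6, h7, h8, h9⟩ := hOE
  have key : ∀ (A : Type) (_ : Countable A) (φ : X → A) (B : Type) (_ : Countable B) (φ' : Y → B),
      IsGenerator r μ φ → IsGenerator r ν φ' → ∃ L : EReal, L ≠ ⊤ ∧
      Tendsto (fun ρ : ℕ => ((bowenF r μ (orbitObs {k : FreeGroup (Fin r) | k.norm ≤ ρ} φ) : ℝ) :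
        EReal)) atTop (𝓝 L) ∧
      Tendsto (fun ρ : ℕ => ((bowenF r ν (orbitObs {k : FreeGroup (Fin r) | k.norm ≤ ρ} φ') : ℝ) :
        EReal)) atTop (𝓝 L) := by
    intro A _ φ B _ φ' hφ hφ'
    have l1 := isLab_of_gen hφ
    have l2 := isLab_of_gen hφ'
    obtain ⟨L, hL, t1, t2⟩ := Pool.Agent.TH722.FI.main_working μ ν hX.pmp hY.pmp hX.free hY.free
      Φ Ψ h1 h2 h3 h4 h5 α h6 β h7 (fun g => (h8 g).mono_exponent hp)
      (fun g => (h9 g).mono_exponent hp) l1 l2 hφ.gen hφ'.gen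
    refine ⟨L, hL, ?_, ?_⟩
    · simp_rw [bowenF_ball hX.pmp l1]
      exact t1
    · simp_rw [bowenF_ball hY.pmp l2]
      exact t2
  obtain ⟨A0, cA0, φ0, g0⟩ := hgX
  obtain ⟨B0, cB0, φ0', g0'⟩ := hgY
  obtain ⟨L, hL, t1, t2⟩ := key A0 cA0 φ0 B0 cB0 φ0' g0 g0'
  refine ⟨L, hL, ⟨⟨A0, cA0, φ0, g0⟩, ?_⟩, ⟨⟨B0, cB0, φ0', g0'⟩, ?_⟩⟩
  · intro A cA φ hφ
    obtain ⟨L', -, t1', t2'⟩ := key A cA φ B0 cB0 φ0' hφ g0'
    rw [tendsto_nhds_unique t2 t2']
    exact t1'
  · intro B cB φ' hφ'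
    obtain ⟨L', -, t1', t2'⟩ := key A0 cA0 φ0 B cB φ' g0 hφ'
    rw [tendsto_nhds_unique t1 t1']
    exact t2'

end Pool.Agent.Results.MP_572a3e_an.LTwoInvariance
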